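import Mathlib

/-!
# A nearly unconditional basis which is not truncation quasi-greedy

Coordinates are indexed by `(k, i) ∈ ℕ × ℕ`; the norm is
`max (sup |f (k,i)|, sup_k 3^(-k) ∑_i |f (k,i) - f (k+1,i) / 2|)`.
It is realised inside `ℓ_∞(Θ)`, where `Θ` consists of the coordinates and of the triples
`(k, F, ε)` (`F` finite, `ε` signs), and the space is the closed span of the unit vectors.
-/

set_option autoImplicit false

namespace Pool.Agent.H921.NU

open scoped ENNReal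

/-- index set of the norming functionals -/
abbrev Th : Type := (ℕ × ℕ) ⊕ (ℕ × Finset ℕ × (ℕ → Bool))

/-- signs -/
def sg (b : Bool) : ℝ := if b then 1 else -1

theorem abs_sg (b : Bool) : |sg b| = 1 := by cases b <;> simp [sg]

/-- the functionals -/
noncomputable def L : Th → (ℕ × ℕ → ℝ) → ℝ
  | Sum.inl p, g => g p
  | Sum.inr (k, F, e), g => (1 / 3 : ℝ) ^ k * ∑ i ∈ F, sg (e i) * (g (k, i) - 1 / 2 * g (k + 1, i))

theorem L_add (θ : Th) (g h : ℕ × ℕ → ℝ) : L θ (g + h) = L θ g + L θ h := by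
  rcases θ with p | ⟨k, F, e⟩
  · rfl
  · simp only [L, Pi.add_apply, ← mul_add, ← Finset.sum_add_distrib]
    congr 1; apply Finset.sum_congr rfl; intro i _; ring

theorem L_smul (θ : Th) (c : ℝ) (g : ℕ × ℕ → ℝ) : L θ (c • g) = c * L θ g := by
  rcases θ with p | ⟨k, F, e⟩
  · rfl
  · simp only [L, Pi.smul_apply, smul_eq_mul]
    rw [mul_left_comm]
    congr 1
    rw [Finset.mul_sum]
    apply Finset.sum_congr rfl; intro i _; ring

/-- the ambient space -/
abbrev EE : Type := lp (fun _ : Th => ℝ) ∞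

theorem L_inr_le (k : ℕ) (F : Finset ℕ) (e : ℕ → Bool) (g : ℕ × ℕ → ℝ) :
    |L (Sum.inr (k, F, e)) g| ≤ (1 / 3 : ℝ) ^ k * ∑ i ∈ F, (|g (k, i)| + 1 / 2 * |g (k + 1, i)|) := by
  simp only [L]
  rw [abs_mul, abs_of_nonneg (by positivity : (0:ℝ) ≤ (1 / 3) ^ k)]
  refine mul_le_mul_of_nonneg_left ?_ (by positivity)
  refine (Finset.abs_sum_le_sum_abs _ _).trans (Finset.sum_le_sum fun i _ => ?_)
  rw [abs_mul, abs_sg, one_mul]
  refine (abs_sub _ _).trans ?_
  rw [abs_mul, abs_of_nonneg (by norm_num : (0:ℝ) ≤ 1 / 2)]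

theorem L_single_bound (p : ℕ × ℕ) (θ : Th) : |L θ (Pi.single p 1)| ≤ 2 := by
  classical
  rcases θ with q | ⟨k, F, e⟩
  · simp only [L, Pi.single_apply]; split_ifs <;> norm_num
  · refine (L_inr_le k F e _).trans ?_
    have h1 : ∑ i ∈ F, (|(Pi.single p 1 : ℕ × ℕ → ℝ) (k, i)|
        + 1 / 2 * |(Pi.single p 1 : ℕ × ℕ → ℝ) (k + 1, i)|)
        ≤ ∑ i ∈ F, (if i = p.2 then (2 : ℝ) else 0) := by
      refine Finset.sum_le_sum fun i _ => ?_
      simp only [Pi.single_apply]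
      by_cases hi : i = p.2
      · rw [if_pos hi]
        split_ifs <;> norm_num
      · rw [if_neg hi, if_neg (by rintro rfl; exact hi rfl), if_neg (by rintro rfl; exact hi rfl)]
        norm_num
    have h2 : ∑ i ∈ F, (if i = p.2 then (2 : ℝ) else 0) ≤ 2 := by
      rw [Finset.sum_ite_eq']
      split_ifs <;> norm_num
    have h3 : (1 / 3 : ℝ) ^ k ≤ 1 := pow_le_one₀ (by norm_num) (by norm_num)
    have h4 : 0 ≤ ∑ i ∈ F, (|(Pi.single p 1 : ℕ × ℕ → ℝ) (k, i)|
        + 1 / 2 * |(Pi.single p 1 : ℕ × ℕ → ℝ) (k + 1, i)|) :=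
      Finset.sum_nonneg fun i _ => by positivity
    nlinarith

/-- the unit vectors -/
noncomputable def vv (p : ℕ × ℕ) : EE :=
  ⟨fun θ => L θ (Pi.single p 1), by
    refine memℓp_infty ⟨2, ?_⟩
    rintro _ ⟨θ, rfl⟩
    exact L_single_bound p θ⟩

theorem vv_apply (p : ℕ × ℕ) (θ : Th) : (vv p : Th → ℝ) θ = L θ (Pi.single p 1) := rfl

theorem vv_norm (p : ℕ × ℕ) : ‖vv p‖ ≤ 2 :=
  lp.norm_le_of_forall_le (by norm_num) fun θ => L_single_bound p θ

/-- the space -/
noncomputable def SS : Submodule ℝ EE := (Submodule.span ℝ (Set.range vv)).topologicalClosure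

theorem isClosed_SS : IsClosed (SS : Set EE) := Submodule.isClosed_topologicalClosure _

instance : CompleteSpace SS := isClosed_SS.completeSpace_coe

/-- coordinates -/
def co (f : EE) : ℕ × ℕ → ℝ := fun p => (f : Th → ℝ) (Sum.inl p)

theorem continuous_apply (θ : Th) : Continuous fun f : EE => (f : Th → ℝ) θ := by
  have : ∀ f g : EE, |(f : Th → ℝ) θ - (g : Th → ℝ) θ| ≤ ‖f - g‖ := fun f g =>
    lp.norm_apply_le_norm (by simp) (f - g) θ
  refine Metric.continuous_iff.2 fun b ε hε => ⟨ε, hε, fun a ha => ?_⟩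
  rw [dist_eq_norm] at ha
  rw [Real.dist_eq]
  exact (this a b).trans_lt ha

/-- on the space all functionals are determined by the coordinates -/
theorem apply_eq (f : EE) (hf : f ∈ SS) (θ : Th) : (f : Th → ℝ) θ = L θ (co f) := by
  have hclosed : IsClosed {f : EE | (f : Th → ℝ) θ = L θ (co f)} := by
    refine isClosed_eq (continuous_apply θ) ?_
    rcases θ with p | ⟨k, F, e⟩
    · exact continuous_apply _
    · simp only [L, co]
      refine continuous_const.mul (continuous_finsetSum _ fun i _ => continuous_const.mul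
        ((continuous_apply _).sub (continuous_const.mul (continuous_apply _))))
  have hsub : (Submodule.span ℝ (Set.range vv) : Set EE) ⊆ {f : EE | (f : Th → ℝ) θ = L θ (co f)} := by
    intro f hf
    induction hf using Submodule.span_induction with
    | mem x hx =>
      obtain ⟨p, rfl⟩ := hx
      change L θ _ = L θ _
      congr 1
    | zero =>
      change (0 : ℝ) = L θ (co 0)
      have : co 0 = (0 : ℝ) • (0 : ℕ × ℕ → ℝ) := by rw [zero_smul]; rfl
      rw [this, L_smul, zero_mul]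
    | add x y _ _ hx hy =>
      have hx' : (x : Th → ℝ) θ = L θ (co x) := hx
      have hy' : (y : Th → ℝ) θ = L θ (co y) := hy
      change (x : Th → ℝ) θ + (y : Th → ℝ) θ = L θ (co x + co y)
      rw [L_add, hx', hy']
    | smul c x _ hx =>
      have hx' : (x : Th → ℝ) θ = L θ (co x) := hx
      change c * (x : Th → ℝ) θ = L θ (c • co x)
      rw [L_smul, hx']
  exact closure_minimal hsub hclosed hf

theorem co_le (f : EE) (p : ℕ × ℕ) : |co f p| ≤ ‖f‖ := lp.norm_apply_le_norm (by simp) f _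

/-- the weighted `ℓ_1` part of the norm -/
theorem sum_le (f : EE) (hf : f ∈ SS) (k : ℕ) (F : Finset ℕ) :
    ∑ i ∈ F, |co f (k, i) - 1 / 2 * co f (k + 1, i)| ≤ 3 ^ k * ‖f‖ := by
  classical
  set e : ℕ → Bool := fun i => decide (0 ≤ co f (k, i) - 1 / 2 * co f (k + 1, i)) with he
  have h1 : |(f : Th → ℝ) (Sum.inr (k, F, e))| ≤ ‖f‖ := lp.norm_apply_le_norm (by simp) f _
  rw [apply_eq f hf] at h1
  have h2 : ∑ i ∈ F, sg (e i) * (co f (k, i) - 1 / 2 * co f (k + 1, i))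
      = ∑ i ∈ F, |co f (k, i) - 1 / 2 * co f (k + 1, i)| := by
    refine Finset.sum_congr rfl fun i _ => ?_
    by_cases h : 0 ≤ co f (k, i) - 1 / 2 * co f (k + 1, i)
    · have : e i = true := by simp only [he]; exact decide_eq_true h
      rw [this, abs_of_nonneg h]; simp [sg]
    · have : e i = false := by simp only [he]; exact decide_eq_false h
      rw [this, abs_of_neg (not_le.1 h)]; simp [sg]
  have h3 : (1 / 3 : ℝ) ^ k * ∑ i ∈ F, |co f (k, i) - 1 / 2 * co f (k + 1, i)| ≤ ‖f‖ := by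
    rw [← h2]; exact (le_abs_self _).trans h1
  have h4 : (3 : ℝ) ^ k * ((1 / 3 : ℝ) ^ k * ∑ i ∈ F, |co f (k, i) - 1 / 2 * co f (k + 1, i)|)
      = ∑ i ∈ F, |co f (k, i) - 1 / 2 * co f (k + 1, i)| := by
    rw [← mul_assoc, ← mul_pow]; norm_num
  rw [← h4]
  exact mul_le_mul_of_nonneg_left h3 (by positivity)

/-- iteration of `f_k = d_k + f_{k+1} / 2` -/
theorem iter (g : ℕ × ℕ → ℝ) (k i r : ℕ) :
    |g (k, i)| ≤ ∑ s ∈ Finset.range r,
      (1 / 2 : ℝ) ^ s * |g (k + s, i) - 1 / 2 * g (k + s + 1, i)| + (1 / 2) ^ r * |g (k + r, i)| := by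
  induction r with
  | zero => simp
  | succ r ih =>
    rw [Finset.sum_range_succ]
    have h1 : |g (k + r, i)| ≤ |g (k + r, i) - 1 / 2 * g (k + r + 1, i)|
        + 1 / 2 * |g (k + r + 1, i)| := by
      have := abs_add_le (g (k + r, i) - 1 / 2 * g (k + r + 1, i)) (1 / 2 * g (k + r + 1, i))
      rw [sub_add_cancel, abs_mul, abs_of_nonneg (by norm_num : (0:ℝ) ≤ 1 / 2)] at this
      exact this
    have h2 := mul_le_mul_of_nonneg_left h1 (by positivity : (0:ℝ) ≤ (1 / 2) ^ r)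
    have h3 : k + (r + 1) = k + r + 1 := by ring
    rw [h3, pow_succ]
    linarith

/-- counting the large coordinates of a vector with coordinates at most one -/
theorem count (f : EE) (hf : f ∈ SS) (hf1 : ∀ p, |co f p| ≤ 1) (a : ℝ) (ha : 0 < a) (r : ℕ)
    (hr : (1 / 2 : ℝ) ^ r ≤ a / 2) (k : ℕ) (F : Finset ℕ) (hF : ∀ i ∈ F, a ≤ |co f (k, i)|) :
    (1 / 3 : ℝ) ^ k * F.card ≤ (2 / a * ∑ s ∈ Finset.range r, (3 / 2 : ℝ) ^ s) * ‖f‖ := by
  have h1 : (a / 2) * F.card ≤ ∑ i ∈ F, ∑ s ∈ Finset.range r,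
      (1 / 2 : ℝ) ^ s * |co f (k + s, i) - 1 / 2 * co f (k + s + 1, i)| := by
    rw [mul_comm, ← nsmul_eq_mul]
    refine Finset.card_nsmul_le_sum _ _ _ fun i hi => ?_
    have h2 := iter (co f) k i r
    have h3 : (1 / 2 : ℝ) ^ r * |co f (k + r, i)| ≤ a / 2 := by
      have := hf1 (k + r, i)
      have h0 : (0:ℝ) ≤ (1 / 2) ^ r := by positivity
      nlinarith [abs_nonneg (co f (k + r, i))]
    have h4 := hF i hi
    linarith
  rw [Finset.sum_comm] at h1
  have h5 : ∑ s ∈ Finset.range r, ∑ i ∈ F,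
      (1 / 2 : ℝ) ^ s * |co f (k + s, i) - 1 / 2 * co f (k + s + 1, i)|
      ≤ ∑ s ∈ Finset.range r, (3 : ℝ) ^ k * ((3 / 2 : ℝ) ^ s * ‖f‖) := by
    refine Finset.sum_le_sum fun s _ => ?_
    rw [← Finset.mul_sum]
    have h6 := sum_le f hf (k + s) F
    have h7 := mul_le_mul_of_nonneg_left h6 (by positivity : (0:ℝ) ≤ (1 / 2) ^ s)
    refine h7.trans (le_of_eq ?_)
    rw [pow_add, div_pow, div_pow, one_pow]; ring
  have h8 : (a / 2) * F.card ≤ 3 ^ k * ((∑ s ∈ Finset.range r, (3 / 2 : ℝ) ^ s) * ‖f‖) := by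
    refine (h1.trans h5).trans (le_of_eq ?_)
    rw [← Finset.mul_sum, ← Finset.sum_mul]
  have h9 : (1 / 3 : ℝ) ^ k * F.card = (1 / 3 : ℝ) ^ k * (2 / a) * ((a / 2) * F.card) := by
    field_simp
  rw [h9]
  refine (mul_le_mul_of_nonneg_left h8 (by positivity)).trans (le_of_eq ?_)
  have : (1 / 3 : ℝ) ^ k * 3 ^ k = 1 := by rw [← mul_pow]; norm_num
  calc (1 / 3 : ℝ) ^ k * (2 / a) * (3 ^ k * ((∑ s ∈ Finset.range r, (3 / 2 : ℝ) ^ s) * ‖f‖))
      = ((1 / 3 : ℝ) ^ k * 3 ^ k) * (2 / a * ∑ s ∈ Finset.range r, (3 / 2 : ℝ) ^ s) * ‖f‖ := by ring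
    _ = _ := by rw [this, one_mul]

end Pool.Agent.H921.NU
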